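import Pool.Agent.Q57.QP.Stm

/-!
# Project QP (helper57): job ISO
-/

set_option autoImplicit false

namespace Pool.Agent.Q210.QP

open MeasureTheory MvPolynomial Topology Filter
open Pool.Agent.W427.SMC Pool.Agent.Y230.PT Pool.Agent.Y230.PS Pool.Agent.Q57.QP
open scoped ENNReal

attribute [local instance] msK bsK msZ bsZ

/-- an isometric self map of a compact set is onto -/
theorem iso_surj {X : Type} [MetricSpace X] {K : Set X} (hK : IsCompact K) (G : X → X)
    (hm : ∀ x ∈ K, G x ∈ K) (hi : ∀ x ∈ K, ∀ y ∈ K, dist (G x) (G y) = dist x y) :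
    G '' K = K := by
  apply Set.Subset.antisymm
  · rintro _ ⟨x, hx, rfl⟩
    exact hm x hx
  intro y hy
  by_contra hcon
  have hcont : ContinuousOn G K := by
    rw [Metric.continuousOn_iff]
    intro b hb ε hε
    exact ⟨ε, hε, fun a ha hab => by rw [hi a ha b hb]; exact hab⟩
  have hcl : IsClosed (G '' K) := (hK.image_of_continuousOn hcont).isClosed
  have hne : (G '' K).Nonempty := ⟨G y, y, hy, rfl⟩
  have hpos : 0 < Metric.infDist y (G '' K) :=
    (hcl.notMem_iff_infDist_pos hne).1 hcon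
  set ε := Metric.infDist y (G '' K) with hε
  have hmem : ∀ n : ℕ, G^[n] y ∈ K := by
    intro n
    induction n with
    | zero => exact hy
    | succ n ih => rw [Function.iterate_succ_apply']; exact hm _ ih
  have hdist : ∀ m n : ℕ, dist (G^[m] y) (G^[m + n] y) = dist y (G^[n] y) := by
    intro m n
    induction m with
    | zero => simp
    | succ m ih =>
      rw [Function.iterate_succ_apply', show m + 1 + n = (m + n) + 1 by ring,
        Function.iterate_succ_apply', hi _ (hmem _) _ (hmem _), ih]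
  have hfar : ∀ m n : ℕ, m < n → ε ≤ dist (G^[m] y) (G^[n] y) := by
    intro m n hmn
    obtain ⟨k, rfl⟩ : ∃ k, n = m + (k + 1) := ⟨n - m - 1, by omega⟩
    rw [hdist]
    refine Metric.infDist_le_dist_of_mem ?_
    rw [Function.iterate_succ_apply']
    exact ⟨_, hmem k, rfl⟩
  obtain ⟨a, -, φ, hφ, hlim⟩ := hK.tendsto_subseq hmem
  have hc := hlim.cauchySeq
  rw [Metric.cauchySeq_iff'] at hc
  obtain ⟨N, hN⟩ := hc ε hpos
  have h1 := hN (N + 1) (Nat.le_succ N)
  have h2 := hfar (φ N) (φ (N + 1)) (hφ (Nat.lt_succ_self N))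
  simp only [Function.comp_apply] at h1
  rw [dist_comm] at h1
  linarith

section

variable (p : ℕ) [Fact p.Prime] {σ : Type} [Fintype σ]

instance : (muE p σ).IsAddHaarMeasure := by
  unfold muE
  infer_instance

theorem ball_image (G : (σ → ℚ_[p]) → σ → ℚ_[p]) (P : σ → ℚ_[p]) (r : ℝ)
    (hi : ∀ x ∈ Metric.closedBall P r, ∀ y ∈ Metric.closedBall P r, ‖G x - G y‖ = ‖x - y‖)
    (x : σ → ℚ_[p]) (ε : ℝ) (hε : 0 ≤ ε) (hx : Metric.closedBall x ε ⊆ Metric.closedBall P r) :
    G '' Metric.closedBall x ε = Metric.closedBall (G x) ε := by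
  have hxx : x ∈ Metric.closedBall x ε := Metric.mem_closedBall_self hε
  have h1 := iso_surj (isCompact_closedBall x ε) (fun z => G z - G x + x) ?_ ?_
  · apply Set.Subset.antisymm
    · rintro _ ⟨z, hz, rfl⟩
      rw [Metric.mem_closedBall, dist_eq_norm, hi z (hx hz) x (hx hxx), ← dist_eq_norm]
      exact hz
    · intro y hy
      have h2 : y - G x + x ∈ Metric.closedBall x ε := by
        rw [Metric.mem_closedBall, dist_eq_norm] at hy ⊢
        simpa using hy
      rw [← h1] at h2
      obtain ⟨z, hz, hzy⟩ := h2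
      refine ⟨z, hz, ?_⟩
      simp only at hzy
      have h3 := add_right_cancel hzy
      exact sub_left_injective h3
  · intro z hz
    rw [Metric.mem_closedBall, dist_eq_norm]
    simp only [add_sub_cancel_right]
    rw [hi z (hx hz) x (hx hxx), ← dist_eq_norm]
    exact hz
  · intro z hz w hw
    rw [dist_eq_norm, dist_eq_norm, ← hi z (hx hz) w (hx hw)]
    congr 1
    abel

theorem ball_measure (x y : σ → ℚ_[p]) (ε : ℝ) :
    muE p σ (Metric.closedBall x ε) = muE p σ (Metric.closedBall y ε) := by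
  have h1 : Metric.closedBall x ε = (fun z => (y - x) + z) ⁻¹' Metric.closedBall y ε := by
    ext z
    rw [Set.mem_preimage, Metric.mem_closedBall, Metric.mem_closedBall, dist_eq_norm, dist_eq_norm]
    congr! 2
    abel
  rw [h1, measure_preimage_add]

theorem injOn (G : (σ → ℚ_[p]) → σ → ℚ_[p]) (P : σ → ℚ_[p]) (r : ℝ)
    (hi : ∀ x ∈ Metric.closedBall P r, ∀ y ∈ Metric.closedBall P r, ‖G x - G y‖ = ‖x - y‖) :
    Set.InjOn G (Metric.closedBall P r) := by
  intro x hx y hy hxy
  have h1 := hi x hx y hy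
  rw [hxy, sub_self, norm_zero] at h1
  exact sub_eq_zero.1 (norm_eq_zero.1 h1.symm)

theorem contOn (G : (σ → ℚ_[p]) → σ → ℚ_[p]) (P : σ → ℚ_[p]) (r : ℝ)
    (hi : ∀ x ∈ Metric.closedBall P r, ∀ y ∈ Metric.closedBall P r, ‖G x - G y‖ = ‖x - y‖) :
    ContinuousOn G (Metric.closedBall P r) := by
  rw [Metric.continuousOn_iff]
  intro b hb ε hε
  exact ⟨ε, hε, fun a ha hab => by
    rw [dist_eq_norm, hi a ha b hb, ← dist_eq_norm]; exact hab⟩

/-- a compact open set contains all balls of some radius around its points -/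
theorem unif (W : Set (σ → ℚ_[p])) (hW : CO W) (r : ℝ) (hr : 0 < r) :
    ∃ ε : ℝ, 0 < ε ∧ ε ≤ r ∧ ∀ x ∈ W, Metric.closedBall x ε ⊆ W := by
  obtain ⟨δ, hδ, h⟩ := hW.1.exists_cthickening_subset_open hW.2 (Set.Subset.refl _)
  refine ⟨min δ r, lt_min hδ hr, min_le_right _ _, fun x hx => ?_⟩
  exact (Metric.closedBall_subset_closedBall (min_le_left _ _)).trans
    ((Metric.closedBall_subset_cthickening hx δ).trans h)

theorem image_co (G : (σ → ℚ_[p]) → σ → ℚ_[p]) (P : σ → ℚ_[p]) (r : ℝ) (hr : 0 < r)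
    (hi : ∀ x ∈ Metric.closedBall P r, ∀ y ∈ Metric.closedBall P r, ‖G x - G y‖ = ‖x - y‖)
    (W : Set (σ → ℚ_[p])) (hWr : W ⊆ Metric.closedBall P r) (hW : CO W) : CO (G '' W) := by
  refine ⟨hW.1.image_of_continuousOn ((contOn p G P r hi).mono hWr), ?_⟩
  obtain ⟨ε, hε, -, h⟩ := unif p W hW r hr
  rw [Metric.isOpen_iff]
  rintro _ ⟨x, hx, rfl⟩
  refine ⟨ε, hε, ?_⟩
  refine Metric.ball_subset_closedBall.trans ?_
  rw [← ball_image p G P r hi x ε hε.le ((h x hx).trans hWr)]
  exact Set.image_mono (h x hx)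

theorem image_measure (G : (σ → ℚ_[p]) → σ → ℚ_[p]) (P : σ → ℚ_[p]) (r : ℝ) (hr : 0 < r)
    (hi : ∀ x ∈ Metric.closedBall P r, ∀ y ∈ Metric.closedBall P r, ‖G x - G y‖ = ‖x - y‖)
    (W : Set (σ → ℚ_[p])) (hWr : W ⊆ Metric.closedBall P r) (hW : CO W) :
    muE p σ (G '' W) = muE p σ W := by
  obtain ⟨ε, hε, -, h⟩ := unif p W hW r hr
  set B : Set (Set (σ → ℚ_[p])) := (fun x => Metric.closedBall x ε) '' W with hB
  have hdis : B.PairwiseDisjoint id := by
    rintro _ ⟨x, hx, rfl⟩ _ ⟨y, hy, rfl⟩ hne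
    rcases IsUltrametricDist.closedBall_eq_or_disjoint x y ε with h1 | h1
    · exact absurd h1 hne
    · exact h1
  have hsub : ∀ b ∈ B, b ⊆ W := by
    rintro _ ⟨x, hx, rfl⟩
    exact h x hx
  have hopen : ∀ b ∈ B, IsOpen b := by
    rintro _ ⟨x, hx, rfl⟩
    exact IsUltrametricDist.isOpen_closedBall x hε.ne'
  have hne : ∀ b ∈ B, b.Nonempty := by
    rintro _ ⟨x, hx, rfl⟩
    exact ⟨x, Metric.mem_closedBall_self hε.le⟩
  have hcount : B.Countable := hdis.countable_of_isOpen hopen hne
  have hWB : W = ⋃ b ∈ B, id b := by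
    apply Set.Subset.antisymm
    · intro x hx
      rw [Set.mem_iUnion₂]
      exact ⟨_, ⟨x, hx, rfl⟩, Metric.mem_closedBall_self hε.le⟩
    · exact Set.iUnion₂_subset hsub
  have hGW : G '' W = ⋃ b ∈ B, G '' b := by
    conv_lhs => rw [hWB]
    rw [Set.image_iUnion₂]
    rfl
  have hGb : ∀ b ∈ B, IsClosed (G '' b) ∧ muE p σ (G '' b) = muE p σ b := by
    rintro _ ⟨x, hx, rfl⟩
    rw [ball_image p G P r hi x ε hε.le ((h x hx).trans hWr)]
    exact ⟨Metric.isClosed_closedBall, ball_measure p _ _ _⟩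
  have hGdis : B.PairwiseDisjoint fun b => G '' b := by
    intro b hb b' hb' hne'
    have h1 : Disjoint b b' := hdis hb hb' hne'
    rw [Function.onFun, Set.disjoint_left]
    rintro _ ⟨x, hx, rfl⟩ ⟨y, hy, hxy⟩
    have h2 : y = x := injOn p G P r hi (hWr (hsub b' hb' hy)) (hWr (hsub b hb hx)) hxy
    rw [h2] at hy
    exact Set.disjoint_left.1 h1 hx hy
  rw [hGW, measure_biUnion hcount hGdis (fun b hb => (hGb b hb).1.measurableSet)]
  conv_rhs => rw [hWB]
  rw [measure_biUnion hcount hdis (fun b hb => (hopen b hb).measurableSet)]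
  refine tsum_congr fun b => ?_
  exact (hGb b.1 b.2).2

theorem basis_co : TopologicalSpace.IsTopologicalBasis {C : Set (σ → ℚ_[p]) | CO C} := by
  refine TopologicalSpace.isTopologicalBasis_of_isOpen_of_nhds (fun C hC => hC.2) ?_
  intro a U ha hU
  obtain ⟨ε, hε, h⟩ := Metric.isOpen_iff.1 hU a ha
  refine ⟨Metric.closedBall a (ε / 2), ⟨isCompact_closedBall a _,
    IsUltrametricDist.isOpen_closedBall a (by positivity)⟩, Metric.mem_closedBall_self (by positivity),
    ?_⟩
  exact (Metric.closedBall_subset_ball (by linarith)).trans h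

end

theorem qp_iso : StIso := by
  intro p _ σ _ G P r hr hGP hi
  have hbP : G '' Metric.closedBall P r = Metric.closedBall P r := by
    have h1 := ball_image p G P r hi P r hr.le (Set.Subset.refl _)
    rwa [hGP] at h1
  refine ⟨hbP, fun V hV hVco => ⟨image_co p G P r hr hi V hV hVco, fun F hF => ?_⟩⟩
  have hGV := image_co p G P r hr hi V hV hVco
  have hcont : ContinuousOn G V := (contOn p G P r hi).mono hV
  have hmeas : AEMeasurable G ((muE p σ).restrict V) := hcont.aemeasurable hVco.2.measurableSet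
  have hfin : IsFiniteMeasure ((muE p σ).restrict V) :=
    ⟨by rw [Measure.restrict_apply_univ]; exact hVco.1.measure_lt_top⟩
  have hfin2 : IsFiniteMeasure (Measure.map G ((muE p σ).restrict V)) := inferInstance
  have key : Measure.map G ((muE p σ).restrict V) = (muE p σ).restrict (G '' V) := by
    refine ext_of_generate_finite {C : Set (σ → ℚ_[p]) | CO C} ?_ ?_ ?_ ?_
    · rw [← (basis_co p).borel_eq_generateFrom]
      exact BorelSpace.measurable_eq
    · intro C hC D hD _
      exact ⟨hC.1.inter hD.1, hC.2.inter hD.2⟩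
    · intro C hC
      have hCm : MeasurableSet C := hC.2.measurableSet
      have h2 : IsOpen (V ∩ G ⁻¹' C) := hcont.isOpen_inter_preimage hVco.2 hC.2
      have h3 : IsCompact (V ∩ G ⁻¹' C) := by
        refine hVco.1.of_isClosed_subset ?_ Set.inter_subset_left
        exact hcont.preimage_isClosed_of_isClosed hVco.1.isClosed hC.1.isClosed
      rw [Measure.restrict_apply hCm, Measure.map_apply_of_aemeasurable hmeas hCm]
      have h4 : (muE p σ).restrict V (G ⁻¹' C) = muE p σ (V ∩ G ⁻¹' C) := by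
        rw [Measure.restrict_apply₀' hVco.2.measurableSet.nullMeasurableSet, Set.inter_comm]
      rw [h4, ← image_measure p G P r hr hi _ (Set.inter_subset_left.trans hV) ⟨h3, h2⟩]
      congr 1
      rw [Set.image_inter_preimage, Set.inter_comm]
    · rw [Measure.map_apply_of_aemeasurable hmeas MeasurableSet.univ, Set.preimage_univ,
        Measure.restrict_apply_univ, Measure.restrict_apply_univ,
        image_measure p G P r hr hi V hV hVco]
  rw [← key, lintegral_map' hF.aemeasurable hmeas]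

end Pool.Agent.Q210.QP
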