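import Pool.Agent.Q210.QP.Iso

/-!
# Project QP (helper57): jobs LIN and EVAL
-/

set_option autoImplicit false

namespace Pool.Agent.Q210.QP

open MeasureTheory MvPolynomial Topology Filter
open Pool.Agent.W427.SMC Pool.Agent.Y230.PT Pool.Agent.Y230.PS Pool.Agent.Q57.QP
open scoped ENNReal

attribute [local instance] msK bsK msZ bsZ

theorem qp_lin : StLin := by
  intro p _ σ _ A
  have h1 : ((muE p σ).map A).IsAddHaarMeasure := inferInstance
  have h2 := Measure.isAddLeftInvariant_eq_smul ((muE p σ).map A) (muE p σ)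
  refine ⟨(Measure.addHaarScalarFactor ((muE p σ).map A) (muE p σ) : ℝ≥0∞), ?_, ENNReal.coe_ne_top,
    fun F hF => ?_⟩
  · have h3 := Measure.addHaarScalarFactor_pos_of_isAddHaarMeasure ((muE p σ).map A) (muE p σ)
    exact_mod_cast h3.ne'
  · rw [← lintegral_map hF A.continuous.measurable]
    conv_lhs => rw [h2]
    rw [lintegral_smul_measure]
    rfl

theorem qp_eval : StEval := by
  intro p _ σ _ f P
  classical
  induction f using MvPolynomial.induction_on with
  | C a =>
    have h1 : (∑ i, eval P (pderiv i (C a : MvPolynomial σ ℚ_[p])) •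
        (ContinuousLinearMap.proj i : (σ → ℚ_[p]) →L[ℚ_[p]] ℚ_[p])) = 0 := by
      refine ContinuousLinearMap.ext fun v => ?_
      rw [_root_.sum_apply]
      refine Finset.sum_eq_zero fun i _ => ?_
      rw [_root_.smul_apply, pderiv_C, map_zero, zero_smul]
    rw [h1]
    simpa using hasStrictFDerivAt_const (𝕜 := ℚ_[p]) a P
  | add f g hf hg =>
    have h1 : (∑ i, eval P (pderiv i (f + g)) •
        (ContinuousLinearMap.proj i : (σ → ℚ_[p]) →L[ℚ_[p]] ℚ_[p])) =
        (∑ i, eval P (pderiv i f) • (ContinuousLinearMap.proj i : (σ → ℚ_[p]) →L[ℚ_[p]] ℚ_[p])) +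
        ∑ i, eval P (pderiv i g) • (ContinuousLinearMap.proj i : (σ → ℚ_[p]) →L[ℚ_[p]] ℚ_[p]) := by
      rw [← Finset.sum_add_distrib]
      refine Finset.sum_congr rfl fun i _ => ?_
      refine ContinuousLinearMap.ext fun v => ?_
      rw [map_add, map_add, _root_.add_apply, _root_.smul_apply, _root_.smul_apply,
        _root_.smul_apply, add_smul]
    rw [h1]
    have h2 : (fun x : σ → ℚ_[p] => eval x (f + g)) = fun x => eval x f + eval x g := by
      funext x
      rw [map_add]
    rw [h2]
    exact hf.add hg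
  | mul_X f j hf =>
    have h3 : HasStrictFDerivAt (fun x : σ → ℚ_[p] => x j)
        (ContinuousLinearMap.proj j : (σ → ℚ_[p]) →L[ℚ_[p]] ℚ_[p]) P :=
      (ContinuousLinearMap.proj j : (σ → ℚ_[p]) →L[ℚ_[p]] ℚ_[p]).hasStrictFDerivAt
    have h2 : (fun x : σ → ℚ_[p] => eval x (f * X j)) = fun x => eval x f * x j := by
      funext x
      rw [map_mul, eval_X]
    rw [h2]
    have h4 := hf.mul h3
    refine h4.congr_fderiv ?_
    ext v
    simp only [_root_.add_apply, _root_.smul_apply,
      _root_.sum_apply, smul_eq_mul, ContinuousLinearMap.proj_apply]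
    have h5 : ∀ i, eval P (pderiv i (f * X j)) * v i =
        P j * (eval P (pderiv i f) * v i) + (if i = j then eval P f * v i else 0) := by
      intro i
      rw [(pderiv i).leibniz, smul_eq_mul, smul_eq_mul, pderiv_X, map_add, map_mul, map_mul, eval_X]
      by_cases hij : i = j
      · subst hij
        rw [Pi.single_eq_same, map_one, if_pos rfl]
        ring
      · rw [if_neg hij, Pi.single_eq_of_ne (Ne.symm hij), map_zero]
        ring
    rw [Finset.sum_congr rfl fun i _ => h5 i, Finset.sum_add_distrib, ← Finset.mul_sum,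
      Finset.sum_ite_eq' Finset.univ j, if_pos (Finset.mem_univ j)]
    ring

end Pool.Agent.Q210.QP
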