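import Pool.Agent.Q57.QP.Stm

/-!
# Project QP (helper57): jobs PL2 and OPEN
-/

set_option autoImplicit false

namespace Pool.Agent.Q210.QP

open MeasureTheory MvPolynomial Topology Filter
open Pool.Agent.W427.SMC Pool.Agent.Y230.PT Pool.Agent.Y230.PS Pool.Agent.Q57.QP
open Pool.Agent.Y229
open Pool.Agent.W574.LM Pool.Agent.W574.SM Pool.Agent.W574.HS Pool.Agent.W574.RO
open scoped ENNReal

attribute [local instance] msK bsK msZ bsZ

theorem qp_pl2 : StPL2 := by
  intro σ ι _ _ _ _ f hf P
  -- the ideal of all local functional equations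
  let I : Ideal (Polynomial ℂ) :=
    { carrier := {b | ∃ H : MvPolynomial σ ℂ, eval P H ≠ 0 ∧
        mulB (Polynomial.C H * b.map C) (G0 f) ∈ V f 1}
      add_mem' := by
        rintro a b ⟨H, hH, ha⟩ ⟨H', hH', hb⟩
        refine ⟨H * H', by rw [map_mul]; exact mul_ne_zero hH hH', ?_⟩
        have h1 := mulB_mem f 1 (Polynomial.C H') _ ha
        have h2 := mulB_mem f 1 (Polynomial.C H) _ hb
        rw [← mulB_mul] at h1 h2
        have h3 : mulB (Polynomial.C (H * H') * (a + b).map C) (G0 f) =
            mulB (Polynomial.C H' * (Polynomial.C H * a.map C)) (G0 f) +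
            mulB (Polynomial.C H * (Polynomial.C H' * b.map C)) (G0 f) := by
          rw [← mulB_add]
          congr 1
          rw [Polynomial.map_add, map_mul]
          ring
        rw [h3]
        exact Submodule.add_mem _ h1 h2
      zero_mem' := by
        refine ⟨1, by rw [map_one]; exact one_ne_zero, ?_⟩
        have h3 : mulB (Polynomial.C (1 : MvPolynomial σ ℂ) * (0 : Polynomial ℂ).map C) (G0 f) =
            0 := by
          funext s
          rw [mulB, Polynomial.map_zero, mul_zero, Polynomial.eval_zero, zero_mul]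
          rfl
        rw [h3]
        exact Submodule.zero_mem _
      smul_mem' := by
        rintro c b ⟨H, hH, hb⟩
        refine ⟨H, hH, ?_⟩
        have h1 := mulB_mem f 1 (c.map C) _ hb
        rw [← mulB_mul] at h1
        have h3 : mulB (Polynomial.C H * (c • b).map C) (G0 f) =
            mulB (c.map C * (Polynomial.C H * b.map C)) (G0 f) := by
          congr 1
          rw [smul_eq_mul, Polynomial.map_mul]
          ring
        rw [h3]
        exact h1 }
  obtain ⟨b0, hb0, hfe⟩ := exists_fe f hf
  have hb0I : b0 ∈ I := by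
    refine ⟨1, by rw [map_one]; exact one_ne_zero, ?_⟩
    rw [map_one, one_mul]
    exact (functionalEq_iff' f b0).1 hfe
  set g := Submodule.IsPrincipal.generator I with hg
  have hgI : g ∈ I := Submodule.IsPrincipal.generator_mem I
  have hdvd : ∀ b ∈ I, g ∣ b := by
    intro b hb
    exact (Submodule.IsPrincipal.mem_iff_generator_dvd I).1 hb
  have hg0 : g ≠ 0 := by
    intro h
    have := hdvd b0 hb0I
    rw [h, zero_dvd_iff] at this
    exact hb0 this
  obtain ⟨H, hH, hV⟩ := hgI
  refine ⟨H, g, hg0, (isLocEq_iff H f g).2 hV, hH, fun α hα => ?_⟩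
  refine sf_of_local f P α (fun H' b' hloc hH' => ?_) ⟨b0, hb0, hfe⟩
  obtain ⟨c, hc⟩ := hdvd b' ⟨H', hH', (isLocEq_iff H' f b').1 hloc⟩
  rw [hc, Polynomial.eval_mul, hα, zero_mul]

theorem qp_open : StOpen := by
  intro p _ φ σ _ H P hP
  let inst : Algebra ℚ_[p] ℂ := φ.toAlgebra
  obtain ⟨l, hl⟩ : ∃ l : Module.Dual ℚ_[p] ℂ, l (eval (fun i => φ (P i)) H) ≠ 0 := by
    by_contra hcon
    push Not at hcon
    exact hP ((Module.forall_dual_apply_eq_zero_iff ℚ_[p] _).1 hcon)
  have hform : ∀ x : σ → ℚ_[p], l (eval (fun i => φ (x i)) H) =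
      ∑ m ∈ H.support, (∏ i, x i ^ m i) * l (coeff m H) := by
    intro x
    rw [eval_eq', map_sum]
    refine Finset.sum_congr rfl fun m _ => ?_
    have h1 : coeff m H * ∏ i, φ (x i) ^ m i = (∏ i, x i ^ m i) • coeff m H := by
      rw [Algebra.smul_def, mul_comm]
      congr 1
      change _ = φ _
      rw [map_prod]
      simp only [map_pow]
    rw [h1, map_smul, smul_eq_mul]
  have hcont : Continuous fun x : σ → ℚ_[p] => l (eval (fun i => φ (x i)) H) := by
    simp_rw [hform]
    refine continuous_finsetSum _ fun m _ => ?_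
    refine Continuous.mul ?_ continuous_const
    exact continuous_finsetProd _ fun i _ => (continuous_apply i).pow _
  have h2 : ∀ᶠ x : σ → ℚ_[p] in 𝓝 P, l (eval (fun i => φ (x i)) H) ≠ 0 :=
    hcont.continuousAt.eventually_ne hl
  filter_upwards [h2] with x hx h0
  rw [h0, map_zero] at hx
  exact hx rfl

end Pool.Agent.Q210.QP
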